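import Pool.Agent.H667R2.HK7

/-! # Category of the symbols that are Riesz projections of multipliers (helper186) -/

open Filter Topology Set
open scoped ENNReal NNReal
open Pool.Agent.H667R2.HankelLp
open Pool.Agent.H667R2

namespace Pool.Agent.Y186.HL

lemma lpNorm_le_iff {p : ℝ≥0∞} (hp0 : p ≠ 0) (hpt : p ≠ ∞) (a : ℤ → ℂ) (C : ℝ≥0∞) :
    lpNorm p a ≤ C ↔ ∀ S : Finset ℤ, ∑ n ∈ S, ‖a n‖ₑ ^ p.toReal ≤ C ^ p.toReal := by
  have hP : 0 < p.toReal := ENNReal.toReal_pos hp0 hpt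
  rw [lpNorm_eq hp0 hpt, one_div, ENNReal.rpow_inv_le_iff hP, ENNReal.tsum_eq_iSup_sum, iSup_le_iff]

lemma closed_ball {p : ℝ≥0∞} (hp0 : p ≠ 0) (hpt : p ≠ ∞) (C : ℝ≥0∞) : IsClosed {a : ℤ → ℂ | lpNorm p a ≤ C} := by
  have : {a : ℤ → ℂ | lpNorm p a ≤ C} = ⋂ S : Finset ℤ, {a : ℤ → ℂ | ∑ n ∈ S, ‖a n‖ₑ ^ p.toReal ≤ C ^ p.toReal} := by
    ext a
    rw [Set.mem_iInter]
    exact lpNorm_le_iff hp0 hpt a C
  rw [this]
  refine isClosed_iInter (fun S => isClosed_le ?_ continuous_const)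
  exact continuous_finsetSum _ (fun n _ => ENNReal.continuous_rpow_const.comp (continuous_enorm.comp (continuous_apply n)))

/-- multipliers with a given bound -/
def MK (p : ℝ≥0∞) (K : ℝ≥0) : Set (ℤ → ℂ) := {m | ∀ u : ℤ →₀ ℂ, lpNorm p (mulPoly m u) ≤ K * lpNorm p u}

lemma mulPoly_cont (u : ℤ →₀ ℂ) : Continuous (fun m : ℤ → ℂ => mulPoly m u) := by
  refine continuous_pi (fun n => ?_)
  unfold mulPoly Finsupp.sum
  exact continuous_finsetSum _ (fun j _ => (continuous_apply (n - j)).mul continuous_const)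

lemma MK_closed {p : ℝ≥0∞} (hp0 : p ≠ 0) (hpt : p ≠ ∞) (K : ℝ≥0) : IsClosed (MK p K) := by
  have : MK p K = ⋂ u : ℤ →₀ ℂ, (fun m : ℤ → ℂ => mulPoly m u) ⁻¹' {a | lpNorm p a ≤ K * lpNorm p u} := by
    ext m; simp [MK]
  rw [this]
  exact isClosed_iInter (fun u => (closed_ball hp0 hpt _).preimage (mulPoly_cont u))

lemma MK_bound {p : ℝ≥0∞} (hp0 : p ≠ 0) (hpt : p ≠ ∞) {K : ℝ≥0} {m : ℤ → ℂ} (hm : m ∈ MK p K) (n : ℤ) :
    ‖m n‖ ≤ K := by
  have hP : 0 < p.toReal := ENNReal.toReal_pos hp0 hpt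
  have h1 := hm (Finsupp.single 0 1)
  have e1 : mulPoly m (Finsupp.single 0 1) = m := by
    ext k
    unfold mulPoly
    rw [Finsupp.sum_single_index (by simp)]
    simp
  have e2 : lpNorm p (fun k => (Finsupp.single (0:ℤ) (1:ℂ)) k) ≤ 1 := by
    rw [lpNorm_le_iff hp0 hpt]
    intro S
    rw [ENNReal.one_rpow]
    calc ∑ k ∈ S, ‖(Finsupp.single (0:ℤ) (1:ℂ)) k‖ₑ ^ p.toReal ≤ ∑ k ∈ S, (if k = 0 then 1 else 0) := by
          refine Finset.sum_le_sum (fun k _ => ?_)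
          split_ifs with hk
          · subst hk; simp
          · rw [Finsupp.single_apply, if_neg (fun h => hk h.symm)]
            simp [hP]
      _ ≤ 1 := by
          rw [Finset.sum_ite_eq']
          split_ifs <;> simp
  rw [e1] at h1
  have h2 : lpNorm p m ≤ K := h1.trans (by
    calc (K : ℝ≥0∞) * lpNorm p (fun k => (Finsupp.single (0:ℤ) (1:ℂ)) k) ≤ K * 1 := by gcongr
      _ = K := mul_one _)
  have h3 := (lpNorm_le_iff hp0 hpt m K).mp h2 {n}
  rw [Finset.sum_singleton, ENNReal.rpow_le_rpow_iff hP] at h3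
  have h4 : ‖m n‖₊ ≤ K := by
    rw [enorm_eq_nnnorm] at h3
    exact_mod_cast h3
  exact h4

lemma MK_compact {p : ℝ≥0∞} (hp0 : p ≠ 0) (hpt : p ≠ ∞) (K : ℝ≥0) : IsCompact (MK p K) := by
  refine (isCompact_univ_pi (fun _ : ℤ => isCompact_closedBall (0:ℂ) (K:ℝ))).of_isClosed_subset
    (MK_closed hp0 hpt K) ?_
  intro m hm n _
  rw [mem_closedBall_zero_iff]
  exact MK_bound hp0 hpt hm n

lemma riesz_cont : Continuous rieszProj := by
  refine continuous_pi (fun n => ?_)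
  unfold rieszProj
  split_ifs
  · exact continuous_apply n
  · exact continuous_const

section
variable {r : ℝ≥0∞} [Fact (1 ≤ r)]

lemma coord_cont (e : ℕ) : Continuous (fun c : lp (fun _ : ℕ => ℝ) r => c e) := by
  have hr : r ≠ 0 := (lt_of_lt_of_le one_pos (Fact.out : 1 ≤ r)).ne'
  let L : lp (fun _ : ℕ => ℝ) r →ₗ[ℝ] ℝ :=
    { toFun := fun c => c e
      map_add' := fun x y => rfl
      map_smul' := fun t x => rfl }
  exact (L.mkContinuous 1 (fun c => by rw [one_mul]; exact lp.norm_apply_le_norm hr c e)).continuous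

lemma sym_cont : Continuous (fun c : lp (fun _ : ℕ => ℝ) r => sym (fun e => c e)) := by
  refine continuous_pi (fun n => ?_)
  by_cases h : n ∈ Set.range (fun e : ℕ => (4 : ℤ) ^ e)
  · obtain ⟨e, rfl⟩ := h
    simp only [sym_pow]
    exact Complex.continuous_ofReal.comp (coord_cont e)
  · simp only [sym_of_notMem _ n h]
    exact continuous_const

/-- symbols of multipliers with a given bound -/
def BK (p r : ℝ≥0∞) (K : ℝ≥0) : Set (lp (fun _ : ℕ => ℝ) r) :=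
  {c | ∃ m ∈ MK p K, rieszProj m = sym (fun e => c e)}

lemma BK_closed {p : ℝ≥0∞} (hp0 : p ≠ 0) (hpt : p ≠ ∞) (K : ℝ≥0) : IsClosed (BK p r K) := by
  have h1 : IsClosed (rieszProj '' MK p K) := ((MK_compact hp0 hpt K).image riesz_cont).isClosed
  exact h1.preimage sym_cont

lemma sym_add (c d : ℕ → ℝ) : sym (fun e => c e + d e) = sym c + sym d := by
  ext n
  by_cases h : n ∈ Set.range (fun e : ℕ => (4 : ℤ) ^ e)
  · obtain ⟨e, rfl⟩ := h
    simp only [Pi.add_apply, sym_pow]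
    push_cast; ring
  · rw [Pi.add_apply, sym_of_notMem _ n h, sym_of_notMem _ n h, sym_of_notMem _ n h, add_zero]

lemma sym_smul (t : ℝ) (c : ℕ → ℝ) : sym (fun e => t * c e) = (t:ℂ) • sym c := by
  ext n
  by_cases h : n ∈ Set.range (fun e : ℕ => (4 : ℤ) ^ e)
  · obtain ⟨e, rfl⟩ := h
    simp only [Pi.smul_apply, sym_pow, smul_eq_mul]
    push_cast; ring
  · rw [Pi.smul_apply, sym_of_notMem _ n h, sym_of_notMem _ n h, smul_zero]

lemma mulPoly_add (m m' : ℤ → ℂ) (u : ℤ →₀ ℂ) : mulPoly (m + m') u = mulPoly m u + mulPoly m' u := by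
  ext n
  unfold mulPoly Finsupp.sum
  rw [Pi.add_apply, ← Finset.sum_add_distrib]
  refine Finset.sum_congr rfl (fun j _ => ?_)
  simp only [Pi.add_apply]; ring

lemma mulPoly_smul (t : ℂ) (m : ℤ → ℂ) (u : ℤ →₀ ℂ) : mulPoly (t • m) u = t • mulPoly m u := by
  ext n
  unfold mulPoly Finsupp.sum
  rw [Pi.smul_apply, smul_eq_mul, Finset.mul_sum]
  refine Finset.sum_congr rfl (fun j _ => ?_)
  simp only [Pi.smul_apply, smul_eq_mul]; ring

/-- the subspace of the symbols of multipliers -/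
def Bs (p r : ℝ≥0∞) [Fact (1 ≤ r)] (hp1 : 1 ≤ p) : Submodule ℝ (lp (fun _ : ℕ => ℝ) r) where
  carrier := {c | ∃ m : ℤ → ℂ, IsMultiplier p m ∧ rieszProj m = sym (fun e => c e)}
  zero_mem' := by
    refine ⟨0, ⟨0, fun u => ?_⟩, ?_⟩
    · have : mulPoly 0 u = 0 := by
        ext n; simp [mulPoly, Finsupp.sum]
      rw [this]
      simp [lpNorm]
    · ext n
      have h1 : rieszProj 0 n = 0 := by simp [rieszProj]
      rw [h1]
      by_cases h : n ∈ Set.range (fun e : ℕ => (4 : ℤ) ^ e)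
      · obtain ⟨e, rfl⟩ := h
        rw [sym_pow]; simp
      · rw [sym_of_notMem _ n h]
  add_mem' := by
    rintro c d ⟨m, ⟨K, hK⟩, hm⟩ ⟨m', ⟨K', hK'⟩, hm'⟩
    refine ⟨m + m', ⟨K + K', fun u => ?_⟩, ?_⟩
    · rw [mulPoly_add]
      have h1 : lpNorm p (mulPoly m u + mulPoly m' u) ≤ lpNorm p (mulPoly m u) + lpNorm p (mulPoly m' u) :=
        MeasureTheory.eLpNorm_add_le (by fun_prop) (by fun_prop) hp1
      refine h1.trans ((add_le_add (hK u) (hK' u)).trans ?_)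
      rw [ENNReal.coe_add, add_mul]
    · have h2 : sym (fun e => (c + d) e) = sym (fun e => c e) + sym (fun e => d e) := sym_add _ _
      rw [h2, ← hm, ← hm']
      ext n
      simp only [rieszProj, Pi.add_apply]
      split_ifs <;> simp
  smul_mem' := by
    rintro t c ⟨m, ⟨K, hK⟩, hm⟩
    refine ⟨(t:ℂ) • m, ⟨‖(t:ℂ)‖₊ * K, fun u => ?_⟩, ?_⟩
    · rw [mulPoly_smul]
      have h1 : lpNorm p ((t:ℂ) • mulPoly m u) = ‖(t:ℂ)‖ₑ * lpNorm p (mulPoly m u) :=
        MeasureTheory.eLpNorm_const_smul _ _ _ _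
      rw [h1, ENNReal.coe_mul, mul_assoc, ← enorm_eq_nnnorm]
      gcongr
      exact hK u
    · have h2 : sym (fun e => (t • c) e) = (t:ℂ) • sym (fun e => c e) := sym_smul _ _
      rw [h2, ← hm]
      ext n
      simp only [rieszProj, Pi.smul_apply]
      split_ifs <;> simp

theorem meagre {p : ℝ≥0∞} (hp1 : 1 < p) (hpt : p ≠ ∞)
    (hex : ∃ c : lp (fun _ : ℕ => ℝ) r, ¬ ∃ m : ℤ → ℂ, IsMultiplier p m ∧ rieszProj m = sym (fun e => c e)) :
    IsMeagre {c : lp (fun _ : ℕ => ℝ) r | ∃ m : ℤ → ℂ, IsMultiplier p m ∧ rieszProj m = sym (fun e => c e)} := by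
  have hp0 : p ≠ 0 := (zero_lt_one.trans hp1).ne'
  have hsub : {c : lp (fun _ : ℕ => ℝ) r | ∃ m : ℤ → ℂ, IsMultiplier p m ∧ rieszProj m = sym (fun e => c e)}
      ⊆ ⋃ K : ℕ, BK p r (K : ℝ≥0) := by
    rintro c ⟨m, ⟨K, hK⟩, hm⟩
    obtain ⟨n, hn⟩ := exists_nat_ge K
    refine Set.mem_iUnion.mpr ⟨n, m, fun u => (hK u).trans ?_, hm⟩
    gcongr
  refine (isMeagre_iUnion (fun K => ?_)).mono hsub
  apply IsNowhereDense.isMeagre
  rw [(BK_closed hp0 hpt _).isNowhereDense_iff]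
  by_contra hne
  have hne' : (interior (BK p r (K : ℝ≥0))).Nonempty := Set.nonempty_iff_ne_empty.mpr hne
  have hBs : BK p r (K : ℝ≥0) ⊆ (Bs p r hp1.le : Set (lp (fun _ : ℕ => ℝ) r)) := by
    rintro c ⟨m, hm, hmc⟩
    exact ⟨m, ⟨_, hm⟩, hmc⟩
  have htop := Submodule.eq_top_of_nonempty_interior' (Bs p r hp1.le) (hne'.mono (interior_mono hBs))
  obtain ⟨c, hc⟩ := hex
  apply hc
  have : c ∈ Bs p r hp1.le := by rw [htop]; trivial
  exact this

end

end Pool.Agent.Y186.HL
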