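import Pool.Agent.Y186.HL.Cat

/-! # Gap series symbols: assembly (helper186) -/

open Filter Topology Set
open scoped ENNReal NNReal
open Pool.Agent.H667R2.HankelLp
open Pool.Agent.H667R2

namespace Pool.Agent.Y186.HL

/-- a bad gap series (extracted from the earlier theorem) -/
lemma exists_bad {p : ℝ≥0∞} (hp1 : 1 < p) (hpt : p ≠ ∞) (hp2 : p ≠ 2) :
    ∃ c : ℕ → ℝ, (∀ e, 0 ≤ c e) ∧ Summable (fun e => c e ^ (min p.toReal p.toReal.conjExponent)) ∧
      ¬ ∃ m : ℤ → ℂ, IsMultiplier p m ∧ rieszProj m = sym c := by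
  have hp0 : p ≠ 0 := (zero_lt_one.trans hp1).ne'
  set P := p.toReal with hPdef
  have hP1 : 1 < P := by
    rw [hPdef, ← ENNReal.toReal_one]
    exact (ENNReal.toReal_lt_toReal ENNReal.one_ne_top hpt).mpr hp1
  have hP2 : P ≠ 2 := by
    intro h
    apply hp2
    rw [← ENNReal.ofReal_toReal hpt, ← hPdef, h]
    simp
  set Q := P.conjExponent with hQdef
  have hPQ : P.HolderConjugate Q := Real.HolderConjugate.conjExponent hP1
  have hQ1 : 1 < Q := hPQ.symm.lt
  have hinv : 1 / P + 1 / Q = 1 := by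
    have := hPQ.inv_add_inv_eq_one
    simpa [one_div] using this
  have hPQne : P ≠ Q := by
    intro h
    rw [← h] at hinv
    have : P ≠ 0 := by linarith
    field_simp at hinv
    apply hP2; linarith
  have fin : ∀ c : ℕ → ℝ, (∀ m : ℤ → ℂ, (∀ j : ℤ, 0 ≤ j → m j = sym c j) → ∀ K : ℝ≥0,
        ¬ ∀ u : ℤ →₀ ℂ, lpNorm p (mulPoly m u) ≤ K * lpNorm p u) →
      ¬ ∃ m : ℤ → ℂ, IsMultiplier p m ∧ rieszProj m = sym c := by
    rintro c hm ⟨m, ⟨K, hK⟩, hmf⟩
    refine hm m ?_ K hK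
    intro j hj
    have := congrFun hmf j
    rw [← this]
    unfold rieszProj
    rw [if_pos hj]
  rcases lt_or_gt_of_ne hPQne with hlt | hgt
  · obtain ⟨c, hc, hcs, hcore⟩ := core hP1 hinv hlt
    refine ⟨c, hc, ?_, fin c (fun m hm K hK => ?_)⟩
    · rw [min_eq_left hlt.le]; exact hcs P le_rfl
    · exact hcore m hm K K.2 (fun g g' => bilin hp0 hpt hPQ hK g g')
  · have hinv' : 1 / Q + 1 / P = 1 := by linarith
    obtain ⟨c, hc, hcs, hcore⟩ := core hQ1 hinv' hgt
    refine ⟨c, hc, ?_, fin c (fun m hm K hK => ?_)⟩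
    · rw [min_eq_right hgt.le]; exact hcs Q le_rfl
    · refine hcore m hm K K.2 (fun g g' => ?_)
      have := bilin hp0 hpt hPQ hK g' g
      rw [mul_comm g g']
      calc |Lfun m (g' * g)| ≤ _ := this
        _ = K * Pool.Agent.H667R2.HK.Np Q g ^ (1 / Q) * Pool.Agent.H667R2.HK.Np P g' ^ (1 / P) := by
            rw [← hPdef]; ring

lemma summ_of_mem {r t : ℝ} (hr : 0 < r) (hrt : r ≤ t) {c : ℕ → ℝ} (hc : Summable (fun e => |c e| ^ r)) :
    Summable (fun e => |c e| ^ t) := by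
  have h0 : Tendsto (fun e => |c e| ^ r) cofinite (𝓝 0) := hc.tendsto_cofinite_zero
  have h1 : ∀ᶠ e in cofinite, |c e| ^ r < 1 := h0.eventually_lt_const one_pos
  refine Summable.of_norm_bounded_eventually hc ?_
  filter_upwards [h1] with e he
  have he0 : 0 ≤ |c e| := abs_nonneg _
  have he1 : |c e| ≤ 1 := by
    by_contra hcon
    push Not at hcon
    have := Real.one_lt_rpow hcon hr
    linarith
  rw [Real.norm_eq_abs, abs_of_nonneg (Real.rpow_nonneg he0 _)]
  rcases he0.eq_or_lt with h | h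
  · rw [← h, Real.zero_rpow (by linarith), Real.zero_rpow hr.ne']
  · exact Real.rpow_le_rpow_of_exponent_ge h he1 hrt

lemma enorm_ne_top {t : ℝ} (ht : 0 < t) {c : ℕ → ℝ} (hc : Summable (fun e => |c e| ^ t)) :
    ∑' e, ‖c e‖ₑ ^ t ≠ ∞ := by
  have : ∀ e, ‖c e‖ₑ ^ t = ENNReal.ofReal (|c e| ^ t) := by
    intro e
    rw [← ENNReal.ofReal_rpow_of_nonneg (abs_nonneg _) ht.le, ← ofReal_norm, Real.norm_eq_abs]
  simp only [this]
  exact hc.tsum_ofReal_ne_top

theorem main (p r : ℝ≥0∞) [Fact (1 ≤ r)] (hp1 : 1 < p) (hpt : p ≠ ∞) (hp2 : p ≠ 2)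
    (hr : r = ENNReal.ofReal (min p.toReal p.toReal.conjExponent)) :
    (∀ c : lp (fun _ : ℕ => ℝ) r, (∀ n < 0, sym (fun e => c e) n = 0) ∧
      Summable (fun n => ‖sym (fun e => c e) n‖ ^ 2) ∧ HankelActs p (sym (fun e => c e))) ∧
    IsMeagre {c : lp (fun _ : ℕ => ℝ) r | ∃ m : ℤ → ℂ, IsMultiplier p m ∧ rieszProj m = sym (fun e => c e)} ∧
    ∃ c : lp (fun _ : ℕ => ℝ) r, HankelActs p (sym (fun e => c e)) ∧
      ¬ ∃ m : ℤ → ℂ, IsMultiplier p m ∧ rieszProj m = sym (fun e => c e) := by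
  set P := p.toReal with hPdef
  have hP1 : 1 < P := by
    rw [hPdef, ← ENNReal.toReal_one]
    exact (ENNReal.toReal_lt_toReal ENNReal.one_ne_top hpt).mpr hp1
  set Q := P.conjExponent with hQdef
  have hPQ : P.HolderConjugate Q := Real.HolderConjugate.conjExponent hP1
  have hQ1 : 1 < Q := hPQ.symm.lt
  have hinv : 1 / P + 1 / Q = 1 := by
    have := hPQ.inv_add_inv_eq_one
    simpa [one_div] using this
  set R := min P Q with hR
  have hR1 : 1 < R := lt_min hP1 hQ1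
  have hR0 : 0 < R := by linarith
  have hR2 : R ≤ 2 := by
    by_contra hcon
    push Not at hcon
    have a1 : 1 / P < 1 / 2 := one_div_lt_one_div_of_lt (by norm_num) (hcon.trans_le (min_le_left _ _))
    have a2 : 1 / Q < 1 / 2 := one_div_lt_one_div_of_lt (by norm_num) (hcon.trans_le (min_le_right _ _))
    linarith
  have hrR : r.toReal = R := by rw [hr, ENNReal.toReal_ofReal hR0.le]
  have hmem : ∀ c : lp (fun _ : ℕ => ℝ) r, Summable (fun e => |c e| ^ R) := by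
    intro c
    have h1 := (memℓp_gen_iff (p := r) (by rw [hrR]; exact hR0)).mp (lp.memℓp c)
    rw [hrR] at h1
    simpa using h1
  have hacts : ∀ c : lp (fun _ : ℕ => ℝ) r, HankelActs p (sym (fun e => c e)) := fun c =>
    hankelActs_sym hp1 hpt hPQ _ (enorm_ne_top (by linarith) (summ_of_mem hR0 (min_le_left _ _) (hmem c)))
      (enorm_ne_top (by linarith) (summ_of_mem hR0 (min_le_right _ _) (hmem c)))
  obtain ⟨c, hc0, hcs, hbad⟩ := exists_bad hp1 hpt hp2
  have hcm : Memℓp (fun e => c e) r := by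
    rw [memℓp_gen_iff (by rw [hrR]; exact hR0), hrR]
    refine hcs.congr (fun e => ?_)
    rw [Real.norm_eq_abs, abs_of_nonneg (hc0 e)]
  have hex : ∃ c : lp (fun _ : ℕ => ℝ) r, ¬ ∃ m : ℤ → ℂ, IsMultiplier p m ∧ rieszProj m = sym (fun e => c e) :=
    ⟨⟨fun e => c e, hcm⟩, hbad⟩
  refine ⟨fun c => ⟨fun n hn => sym_neg_index _ n hn, ?_, hacts c⟩, meagre hp1 hpt hex, ?_⟩
  · rw [← inj4.summable_iff]
    · have := summ_of_mem hR0 hR2 (hmem c)
      refine this.congr ?_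
      intro e
      simp [sym_pow]
    · intro n hn
      rw [sym_of_notMem _ n hn]; simp
  · obtain ⟨c, hc⟩ := hex
    exact ⟨c, hacts c, hc⟩

end Pool.Agent.Y186.HL
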