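import Pool.Agent.Y186.HL.Fin

/-! # Gap series symbols: necessity (helper186) -/

open Filter Topology Set
open scoped ENNReal NNReal
open Pool.Agent.H667R2.HankelLp
open Pool.Agent.H667R2

namespace Pool.Agent.Y186.HL

lemma hankel_neg (f : ℤ → ℂ) (g : ℤ →₀ ℂ) {n : ℤ} (hn : n < 0) : hankel f g n = mulPoly (conjCoeff f) g n := by
  unfold hankel rieszProj
  rw [Pi.sub_apply, if_neg (by omega), sub_zero]

lemma single_le {p : ℝ≥0∞} (hp0 : p ≠ 0) (hpt : p ≠ ∞) : lpNorm p (fun k => (Finsupp.single (0:ℤ) (1:ℂ)) k) ≤ 1 := by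
  have hP : 0 < p.toReal := ENNReal.toReal_pos hp0 hpt
  rw [lpNorm_le_iff hp0 hpt]
  intro S
  rw [ENNReal.one_rpow]
  calc ∑ k ∈ S, ‖(Finsupp.single (0:ℤ) (1:ℂ)) k‖ₑ ^ p.toReal ≤ ∑ k ∈ S, (if k = 0 then 1 else 0) := by
        refine Finset.sum_le_sum (fun k _ => ?_)
        split_ifs with hk
        · subst hk; simp
        · rw [Finsupp.single_apply, if_neg (fun h => hk h.symm)]
          simp [hP]
    _ ≤ 1 := by
        rw [Finset.sum_ite_eq']
        split_ifs <;> simp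

/-- finite sums are bounded -/
lemma summ_of_enorm {t : ℝ} (ht : 0 < t) {c : ℕ → ℝ} {B : ℝ≥0∞} (hB : B ≠ ∞)
    (h : ∀ N : ℕ, ∑ e ∈ Finset.range N, ‖c e‖ₑ ^ t ≤ B) : Summable (fun e => |c e| ^ t) := by
  refine summable_of_sum_range_le (c := B.toReal) (fun e => Real.rpow_nonneg (abs_nonneg _) _) (fun N => ?_)
  have h1 : ∑ e ∈ Finset.range N, ‖c e‖ₑ ^ t = ENNReal.ofReal (∑ e ∈ Finset.range N, |c e| ^ t) := by
    rw [ENNReal.ofReal_sum_of_nonneg (fun e _ => Real.rpow_nonneg (abs_nonneg _) _)]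
    refine Finset.sum_congr rfl (fun e _ => ?_)
    rw [← ENNReal.ofReal_rpow_of_nonneg (abs_nonneg _) ht.le, ← ofReal_norm, Real.norm_eq_abs]
  have h2 := h N
  rw [h1] at h2
  exact (ENNReal.ofReal_le_iff_le_toReal hB).mp h2

lemma nec1 {p : ℝ≥0∞} (hp0 : p ≠ 0) (hpt : p ≠ ∞) {c : ℕ → ℝ} (h : HankelActs p (sym c)) :
    Summable (fun e => |c e| ^ p.toReal) := by
  have hP : 0 < p.toReal := ENNReal.toReal_pos hp0 hpt
  obtain ⟨C, hC⟩ := h
  have h1 := hC (Finsupp.single 0 1) (fun n hn => by rw [Finsupp.single_apply, if_neg (by omega)])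
  have h2 : lpNorm p (hankel (sym c) (Finsupp.single 0 1)) ≤ C := h1.trans (by
    calc (C : ℝ≥0∞) * lpNorm p (fun k => (Finsupp.single (0:ℤ) (1:ℂ)) k) ≤ C * 1 := by
          gcongr
          exact single_le hp0 hpt
      _ = C := mul_one _)
  rw [lpNorm_le_iff hp0 hpt] at h2
  refine summ_of_enorm hP (B := (C : ℝ≥0∞) ^ p.toReal) (ENNReal.rpow_ne_top_of_nonneg hP.le ENNReal.coe_ne_top)
    (fun N => ?_)
  have h3 := h2 ((Finset.range N).image (fun e : ℕ => -(4:ℤ) ^ e))
  rw [Finset.sum_image (fun a _ b _ hab => inj4 (neg_injective hab))] at h3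
  refine le_trans (le_of_eq (Finset.sum_congr rfl (fun e _ => ?_))) h3
  have hneg : -(4:ℤ) ^ e < 0 := by
    have : (0:ℤ) < 4 ^ e := by positivity
    omega
  rw [hankel_neg _ _ hneg]
  unfold mulPoly
  rw [Finsupp.sum_single_index (by simp)]
  unfold conjCoeff
  rw [sub_zero, neg_neg, sym_pow, mul_one, Complex.conj_ofReal]
  simp [enorm_eq_nnnorm]

lemma nec2 {p : ℝ≥0∞} (hp0 : p ≠ 0) (hpt : p ≠ ∞) {Q : ℝ} (hPQ : p.toReal.HolderConjugate Q) {c : ℕ → ℝ}
    (h : HankelActs p (sym c)) : Summable (fun e => |c e| ^ Q) := by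
  have hP : 0 < p.toReal := ENNReal.toReal_pos hp0 hpt
  set P := p.toReal with hPdef
  have hQ : 0 < Q := hPQ.symm.pos
  have hQ1 : 1 < Q := hPQ.symm.lt
  obtain ⟨C, hC⟩ := h
  have hinj : Function.Injective (fun e : ℕ => (4:ℤ) ^ e - 1) := fun a b hab => inj4 (by
    simp only at hab ⊢; omega)
  refine summable_of_sum_range_le (c := (C:ℝ) ^ Q) (fun e => Real.rpow_nonneg (abs_nonneg _) _) (fun N => ?_)
  set A : ℝ := ∑ e ∈ Finset.range N, |c e| ^ Q with hA
  have hA0 : 0 ≤ A := Finset.sum_nonneg (fun e _ => Real.rpow_nonneg (abs_nonneg _) _)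
  -- the test function
  let b : ℕ → ℝ := fun e => if e < N then SignType.sign (c e) * |c e| ^ (Q - 1) else 0
  have hsymb : ∀ n : ℤ, n ∉ Finset.image (fun e : ℕ => (4:ℤ) ^ e - 1) (Finset.range N) → sym b (n + 1) = 0 := by
    intro n hn
    by_cases hm : n + 1 ∈ Set.range (fun e : ℕ => (4 : ℤ) ^ e)
    · obtain ⟨e, he⟩ := hm
      simp only at he
      rw [← he, sym_pow]
      have : ¬ e < N := fun hlt => hn (Finset.mem_image.mpr ⟨e, Finset.mem_range.mpr hlt, by omega⟩)
      simp [b, this]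
    · exact sym_of_notMem _ _ hm
  let g : ℤ →₀ ℂ := Finsupp.onFinset (Finset.image (fun e : ℕ => (4:ℤ) ^ e - 1) (Finset.range N))
    (fun n => sym b (n + 1)) (fun n hn => by
      by_contra hcon
      exact hn (hsymb n hcon))
  have hg : ∀ n, g n = sym b (n + 1) := fun n => rfl
  have hb : ∀ e ∈ Finset.range N, |b e| ^ P = |c e| ^ Q := by
    intro e he
    simp only [b, if_pos (Finset.mem_range.mp he)]
    rcases eq_or_ne (c e) 0 with h0 | h0
    · rw [h0]
      simp [Real.zero_rpow hQ.ne', Real.zero_rpow hP.ne']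
    · have h1 : |((SignType.sign (c e) : SignType) : ℝ)| = 1 := by
        rcases lt_or_gt_of_ne h0 with h2 | h2
        · rw [sign_neg h2]; simp
        · rw [sign_pos h2]; simp
      rw [abs_mul, h1, one_mul, abs_of_nonneg (Real.rpow_nonneg (abs_nonneg _) _), ← Real.rpow_mul (abs_nonneg _)]
      congr 1
      have := hPQ.symm.sub_one_mul_conj
      linarith
  have hcb : ∀ e ∈ Finset.range N, c e * b e = |c e| ^ Q := by
    intro e he
    simp only [b, if_pos (Finset.mem_range.mp he)]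
    rcases eq_or_ne (c e) 0 with h0 | h0
    · rw [h0]
      simp [Real.zero_rpow hQ.ne']
    · have h1 : c e * ((SignType.sign (c e) : SignType) : ℝ) = |c e| := by
        rw [mul_comm]; exact sign_mul_self _
      rw [← mul_assoc, h1]
      have h2 : 0 < |c e| := abs_pos.mpr h0
      calc |c e| * |c e| ^ (Q - 1) = |c e| ^ (1:ℝ) * |c e| ^ (Q - 1) := by rw [Real.rpow_one]
        _ = |c e| ^ Q := by rw [← Real.rpow_add h2]; congr 1; ring
  have hgn : lpNorm p g ≤ ENNReal.ofReal (A ^ (1 / P)) := by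
    rw [lpNorm_le_iff hp0 hpt]
    intro S
    have e1 : ENNReal.ofReal (A ^ (1 / P)) ^ P = ENNReal.ofReal A := by
      rw [ENNReal.ofReal_rpow_of_nonneg (Real.rpow_nonneg hA0 _) hP.le, ← Real.rpow_mul hA0,
        one_div_mul_cancel hP.ne', Real.rpow_one]
    rw [← hPdef, e1]
    have e2 : ∀ n, ‖g n‖ₑ ^ P = ENNReal.ofReal (‖sym b (n + 1)‖ ^ P) := fun n => by
      rw [hg, ← ENNReal.ofReal_rpow_of_nonneg (norm_nonneg _) hP.le, ofReal_norm]
    rw [Finset.sum_congr rfl (fun n _ => e2 n),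
      ← ENNReal.ofReal_sum_of_nonneg (fun n _ => Real.rpow_nonneg (norm_nonneg _) _)]
    refine ENNReal.ofReal_le_ofReal ?_
    have e3 : ∑ n ∈ Finset.image (fun e : ℕ => (4:ℤ) ^ e - 1) (Finset.range N), ‖sym b (n + 1)‖ ^ P = A := by
      rw [Finset.sum_image (fun a _ b _ hab => hinj hab), hA]
      refine Finset.sum_congr rfl (fun e he => ?_)
      rw [sub_add_cancel, sym_pow, Complex.norm_real, Real.norm_eq_abs]
      exact hb e he
    rw [← e3]
    calc ∑ n ∈ S, ‖sym b (n + 1)‖ ^ P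
        ≤ ∑ n ∈ S ∪ Finset.image (fun e : ℕ => (4:ℤ) ^ e - 1) (Finset.range N), ‖sym b (n + 1)‖ ^ P :=
          Finset.sum_le_sum_of_subset_of_nonneg Finset.subset_union_left
            (fun n _ _ => Real.rpow_nonneg (norm_nonneg _) _)
      _ = ∑ n ∈ Finset.image (fun e : ℕ => (4:ℤ) ^ e - 1) (Finset.range N), ‖sym b (n + 1)‖ ^ P := by
          symm
          refine Finset.sum_subset Finset.subset_union_right (fun n _ hn => ?_)
          rw [hsymb n hn, norm_zero, Real.zero_rpow hP.ne']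
  have h1 := hC g (fun n hn => by
    rw [hg]
    apply hsymb
    intro hmem
    obtain ⟨e, _, he⟩ := Finset.mem_image.mp hmem
    have : (0:ℤ) < 4 ^ e := by positivity
    omega)
  have h2 : ‖hankel (sym c) g (-1)‖ₑ ≤ lpNorm p (hankel (sym c) g) := by
    have h3 := (lpNorm_le_iff hp0 hpt (hankel (sym c) g) _).mp le_rfl {-1}
    rw [Finset.sum_singleton, ← hPdef, ENNReal.rpow_le_rpow_iff hP] at h3
    exact h3
  have h4 : hankel (sym c) g (-1) = (A : ℂ) := by
    rw [hankel_neg _ _ (by norm_num)]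
    unfold mulPoly
    rw [Finsupp.onFinset_sum _ (fun _ => by simp), Finset.sum_image (fun a _ b _ hab => hinj hab), hA]
    push_cast
    refine Finset.sum_congr rfl (fun e he => ?_)
    unfold conjCoeff
    rw [show -(-1 - ((4:ℤ) ^ e - 1)) = 4 ^ e by ring, sub_add_cancel, sym_pow, sym_pow, Complex.conj_ofReal,
      ← Complex.ofReal_mul, hcb e he]
  have h5 : ENNReal.ofReal A ≤ C * ENNReal.ofReal (A ^ (1 / P)) := by
    calc ENNReal.ofReal A = ‖hankel (sym c) g (-1)‖ₑ := by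
          rw [h4, ← ofReal_norm, Complex.norm_real, Real.norm_eq_abs, abs_of_nonneg hA0]
      _ ≤ C * lpNorm p g := h2.trans h1
      _ ≤ _ := by gcongr
  rw [← ENNReal.ofReal_coe_nnreal, ← ENNReal.ofReal_mul (by positivity)] at h5
  have h6 : A ≤ C * A ^ (1 / P) := (ENNReal.ofReal_le_ofReal_iff (by positivity)).mp h5
  rcases hA0.eq_or_lt with h7 | h7
  · rw [← h7]; positivity
  · have h8 : A ^ (1 / Q) ≤ C := by
      have h9 : A = A ^ (1 / Q) * A ^ (1 / P) := by
        rw [← Real.rpow_add h7]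
        have := hPQ.inv_add_inv_eq_one
        rw [show 1 / Q + 1 / P = 1 by rw [one_div, one_div]; linarith, Real.rpow_one]
      have h10 : 0 < A ^ (1 / P) := Real.rpow_pos_of_pos h7 _
      rw [h9] at h6
      have h11 : (A ^ (1 / Q) * A ^ (1 / P)) ^ (1 / P) = A ^ (1 / P) := by rw [← h9]
      rw [h11] at h6
      exact le_of_mul_le_mul_right h6 h10
    calc A = (A ^ (1 / Q)) ^ Q := by rw [← Real.rpow_mul h7.le, one_div_mul_cancel hQ.ne', Real.rpow_one]
      _ ≤ (C:ℝ) ^ Q := Real.rpow_le_rpow (Real.rpow_nonneg h7.le _) h8 hQ.le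

/-- the Hankel operators of gap series: characterization -/
theorem acts_iff (p : ℝ≥0∞) (hp1 : 1 < p) (hpt : p ≠ ∞) (c : ℕ → ℝ) :
    HankelActs p (sym c) ↔ Memℓp c (ENNReal.ofReal (min p.toReal p.toReal.conjExponent)) := by
  have hp0 : p ≠ 0 := (zero_lt_one.trans hp1).ne'
  set P := p.toReal with hPdef
  have hP1 : 1 < P := by
    rw [hPdef, ← ENNReal.toReal_one]
    exact (ENNReal.toReal_lt_toReal ENNReal.one_ne_top hpt).mpr hp1
  set Q := P.conjExponent with hQdef
  have hPQ : P.HolderConjugate Q := Real.HolderConjugate.conjExponent hP1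
  have hQ1 : 1 < Q := hPQ.symm.lt
  set R := min P Q with hR
  have hR0 : 0 < R := lt_min (by linarith) (by linarith)
  have hrR : (ENNReal.ofReal R).toReal = R := ENNReal.toReal_ofReal hR0.le
  rw [memℓp_gen_iff (by rw [hrR]; exact hR0), hrR]
  simp only [Real.norm_eq_abs]
  constructor
  · intro h
    rcases le_total P Q with h1 | h1
    · rw [hR, min_eq_left h1]; exact nec1 hp0 hpt h
    · rw [hR, min_eq_right h1]; exact nec2 hp0 hpt hPQ h
  · intro h
    exact hankelActs_sym hp1 hpt hPQ _ (enorm_ne_top (by linarith) (summ_of_mem hR0 (min_le_left _ _) h))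
      (enorm_ne_top (by linarith) (summ_of_mem hR0 (min_le_right _ _) h))

end Pool.Agent.Y186.HL
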